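import Mathlib
import Pool.Agent.N753.DR.Stm6

/-!
# PC/COMB: ramification above several subfields and the discriminant (helper901)
-/

set_option autoImplicit false
set_option linter.unusedSectionVars false

namespace Pool.Agent.N901.PC.Comb

open NumberField IsDedekindDomain Module Polynomial
open Pool.Agent.N753.DR

theorem lN_nonneg {M : Type} [Field M] [NumberField M] (w : HeightOneSpectrum (𝓞 M)) : 0 ≤ lN w :=
  Real.log_natCast_nonneg _

/-- the ramification index over the rational numbers -/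
noncomputable def E {L : Type} [Field L] [NumberField L] (u : HeightOneSpectrum (𝓞 L)) : ℕ :=
  (u.asIdeal.under ℤ).ramificationIdx' u.asIdeal

section Ext
variable {k L : Type} [Field k] [NumberField k] [Field L] [NumberField L] [Algebra k L]

theorem lN_over (v : HeightOneSpectrum (𝓞 k)) (w : HeightOneSpectrum (𝓞 L))
    (h : w.asIdeal.LiesOver v.asIdeal) :
    lN w = v.asIdeal.inertiaDeg' w.asIdeal * lN v := by
  unfold lN
  have := Ideal.absNorm_eq_pow_inertiaDeg'_of_liesOver w.asIdeal v.asIdeal v.isPrime v.ne_bot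
  rw [this]
  push_cast
  rw [Real.log_pow]

/-- the sum over the primes above a prime -/
theorem sum_over (v : HeightOneSpectrum (𝓞 k)) :
    ∃ W : Finset (HeightOneSpectrum (𝓞 L)), (∀ w, w ∈ W ↔ w.asIdeal.LiesOver v.asIdeal) ∧
      ∑ w ∈ W, (v.asIdeal.ramificationIdx' w.asIdeal : ℝ) * lN w = finrank k L * lN v := by
  classical
  have hmax : v.asIdeal.IsMaximal := v.isMaximal
  have h1 := Ideal.sum_ramification_inertia (𝓞 L) k L (p := v.asIdeal) v.ne_bot
  have hmem : ∀ P, P ∈ IsDedekindDomain.primesOverFinset v.asIdeal (𝓞 L) ↔ P.IsPrime ∧ P.LiesOver v.asIdeal :=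
    fun P => IsDedekindDomain.mem_primesOverFinset_iff v.ne_bot _
  let f : {P // P ∈ IsDedekindDomain.primesOverFinset v.asIdeal (𝓞 L)} → HeightOneSpectrum (𝓞 L) := fun P =>
    ⟨P.1, ((hmem P.1).1 P.2).1, by
      have := ((hmem P.1).1 P.2).2
      exact Ideal.ne_bot_of_liesOver_of_ne_bot v.ne_bot P.1⟩
  refine ⟨(IsDedekindDomain.primesOverFinset v.asIdeal (𝓞 L)).attach.image f, fun w => ?_, ?_⟩
  · rw [Finset.mem_image]
    constructor
    · rintro ⟨P, -, rfl⟩
      exact ((hmem P.1).1 P.2).2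
    · intro h
      exact ⟨⟨w.asIdeal, (hmem _).2 ⟨w.isPrime, h⟩⟩, Finset.mem_attach _ _, rfl⟩
  · rw [Finset.sum_image]
    · rw [← h1]
      push_cast
      rw [Finset.sum_mul, ← Finset.sum_attach (IsDedekindDomain.primesOverFinset v.asIdeal (𝓞 L))
        (fun i => (v.asIdeal.ramificationIdx' i : ℝ) * (v.asIdeal.inertiaDeg' i : ℝ) * lN v)]
      refine Finset.sum_congr rfl fun P _ => ?_
      have hP := (hmem P.1).1 P.2
      have h2 := lN_over v (f P) hP.2
      rw [h2, mul_assoc]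
    · intro P _ Q _ h
      apply Subtype.ext
      exact congrArg HeightOneSpectrum.asIdeal h

theorem under_ne_bot (u : HeightOneSpectrum (𝓞 L)) : u.asIdeal.under ℤ ≠ ⊥ := by
  intro h
  exact u.ne_bot (Ideal.eq_bot_of_comap_eq_bot h)

theorem e_le (v : HeightOneSpectrum (𝓞 k)) (w : HeightOneSpectrum (𝓞 L))
    (h : w.asIdeal.LiesOver v.asIdeal) : v.asIdeal.ramificationIdx' w.asIdeal ≤ E w := by
  have h1 : w.asIdeal.LiesOver (w.asIdeal.under ℤ) := ⟨rfl⟩
  have h2 : v.asIdeal.LiesOver (w.asIdeal.under ℤ) := by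
    constructor
    rw [h.over, Ideal.under_under]
  have h3 := w.isPrime
  exact Ideal.IsDedekindDomain.ramificationIdx'_le_ramificationIdx' (w.asIdeal.under ℤ) v.asIdeal
    w.asIdeal (under_ne_bot w)

/-- one field -/
theorem one (W : Finset (HeightOneSpectrum (𝓞 k))) (V : Finset (HeightOneSpectrum (𝓞 L)))
    (hV : ∀ u, u ∈ V ↔ ∃ w ∈ W, u.asIdeal.LiesOver w.asIdeal) :
    (finrank k L : ℝ) * ∑ w ∈ W, lN w ≤ ∑ u ∈ V, (E u : ℝ) * lN u := by
  classical
  choose T hT1 hT2 using fun v : HeightOneSpectrum (𝓞 k) => sum_over (L := L) v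
  have h1 : V = W.biUnion T := by
    ext u
    rw [hV, Finset.mem_biUnion]
    exact exists_congr fun w => and_congr_right fun _ => (hT1 w u).symm
  rw [h1, Finset.sum_biUnion, Finset.mul_sum]
  · refine Finset.sum_le_sum fun w _ => ?_
    rw [← hT2 w]
    refine Finset.sum_le_sum fun u hu => ?_
    exact mul_le_mul_of_nonneg_right (Nat.cast_le.2 (e_le w u ((hT1 w u).1 hu))) (lN_nonneg u)
  · intro w _ w' _ hne
    rw [Function.onFun, Finset.disjoint_left]
    intro u hu hu'
    apply hne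
    have a1 := ((hT1 w u).1 hu).over
    have a2 := ((hT1 w' u).1 hu').over
    exact HeightOneSpectrum.ext (a1.trans a2.symm)

end Ext

/-- the ramified primes divide the different -/
theorem disc {L : Type} [Field L] [NumberField L] (U : Finset (HeightOneSpectrum (𝓞 L))) :
    ∑ u ∈ U, ((E u - 1 : ℕ) : ℝ) * lN u ≤ Real.log |(discr L : ℝ)| := by
  classical
  have h1 : ∏ u ∈ U, u.asIdeal ^ (E u - 1) ∣ differentIdeal ℤ (𝓞 L) := by
    refine Finset.prod_dvd_of_coprime ?_ ?_
    · intro u _ u' _ hne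
      refine IsCoprime.pow ?_
      rw [Ideal.isCoprime_iff_sup_eq]
      exact u.isMaximal.coprime_of_ne u'.isMaximal fun h => hne (HeightOneSpectrum.ext h)
    · intro u _
      have hmax : (u.asIdeal.under ℤ).IsMaximal := by
        have := u.isMaximal
        infer_instance
      refine pow_sub_one_dvd_differentIdeal ℤ (p := u.asIdeal.under ℤ) u.asIdeal (E u)
        (under_ne_bot u) ?_
      exact Ideal.dvd_iff_le.2 Ideal.le_pow_ramificationIdx'
  have h2 := map_dvd (Ideal.absNorm (S := 𝓞 L)) h1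
  rw [NumberField.absNorm_differentIdeal (K := L), map_prod] at h2
  have hd : 0 < (discr L).natAbs := Int.natAbs_pos.2 (discr_ne_zero L)
  have h3 := Nat.le_of_dvd hd h2
  have h4 : ∑ u ∈ U, ((E u - 1 : ℕ) : ℝ) * lN u =
      Real.log ((∏ u ∈ U, Ideal.absNorm (u.asIdeal ^ (E u - 1)) : ℕ) : ℝ) := by
    push_cast
    rw [Real.log_prod]
    · refine Finset.sum_congr rfl fun u _ => ?_
      rw [map_pow]
      push_cast
      rw [Real.log_pow]
      rfl
    · intro u _
      rw [map_pow]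
      push_cast
      apply pow_ne_zero
      exact_mod_cast (Ideal.absNorm_eq_zero_iff.not.2 u.ne_bot)
  rw [h4]
  have h5 : |(discr L : ℝ)| = ((discr L).natAbs : ℝ) := by
    rw [Nat.cast_natAbs, Int.cast_abs]
  rw [h5]
  apply Real.log_le_log
  · rw [Nat.cast_pos]
    exact Nat.pos_of_dvd_of_pos h2 hd
  · exact_mod_cast h3

theorem t : StmComb := by
  intro k L _ _ _ _ _ m M W V hV hdis
  classical
  have h1 : ∀ i, (finrank (M i) L : ℝ) * ∑ w ∈ W i, lN w ≤ ∑ u ∈ V i, (E u : ℝ) * lN u :=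
    fun i => one (W i) (V i) (hV i)
  have h2 : ∀ i, ∑ u ∈ V i, (E u : ℝ) * lN u ≤
      ∑ u ∈ V i, lN u + ∑ u ∈ V i, ((E u - 1 : ℕ) : ℝ) * lN u := by
    intro i
    rw [← Finset.sum_add_distrib]
    refine Finset.sum_le_sum fun u _ => ?_
    have h3 : (E u : ℝ) ≤ 1 + ((E u - 1 : ℕ) : ℝ) := by
      have : E u ≤ 1 + (E u - 1) := by omega
      exact_mod_cast this
    nlinarith [lN_nonneg u]
  calc ∑ i, (finrank (M i) L : ℝ) * ∑ w ∈ W i, lN w
      ≤ ∑ i, (∑ u ∈ V i, lN u + ∑ u ∈ V i, ((E u - 1 : ℕ) : ℝ) * lN u) :=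
        Finset.sum_le_sum fun i _ => (h1 i).trans (h2 i)
    _ = ∑ i, ∑ u ∈ V i, lN u + ∑ u ∈ Finset.univ.biUnion V, ((E u - 1 : ℕ) : ℝ) * lN u := by
        rw [Finset.sum_add_distrib, Finset.sum_biUnion]
        intro i _ j _ hij
        exact hdis i j hij
    _ ≤ _ := by
        have := disc (Finset.univ.biUnion V)
        linarith

end Pool.Agent.N901.PC.Comb
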